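import Pool.Agent.K4H53.CX.Stm2
import Pool.Agent.R425.P.Cl4

/-!
# `S_CLS`: the class of `z`, locally trivial at all fields where the local condition holds
-/

set_option autoImplicit false
set_option linter.all false

open NumberField IsDedekindDomain WithZero WeierstrassCurve WeierstrassCurve.Affine
open scoped NNReal Classical

namespace Pool.Agent.K4H2.CX

open Pool.Agent.TH115.GD
open Pool.Agent.Y710.CV (Cond cond1 cond2)
open Pool.Agent.Y702.G (sh base pts)
open Pool.Agent.R425 (Ev exists_cls sq_of_triv)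
open Pool.Agent.Y809.BS (presQ)
open Pool.Agent.R425.G
open Pool.Agent.R425.P

theorem s_cls : Pool.Agent.K4H53.CX.S_CLS := by
  intro K _ _ _ W hW hnr A _ _ θ hcf z r hr0 hr hzsq
  haveI : IsGalois ℚ (AlgebraicClosure K) := IsGalois.mk
  haveI : CharZero (AlgebraicClosure K) := algebraRat.charZero _
  have hV := iv_sh W hW
  have hnrQ : ∀ x : ℚ, cub (sh W) x ≠ 0 := by
    intro x hx
    apply hnr (algebraMap ℚ K x)
    have h := cub_map (sh W) (incl ℚ ℚ K) x
    rw [hx, map_zero] at h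
    exact h
  obtain ⟨a, b, c, hC⟩ := Y355.G.V_roots hV.a1 hV.a3 hV.Δ (AlgebraicClosure K)
  have hnorm := norm_em hcf hC (z : A)
  rw [← zf_root hcf (z : A) ⟨a, hC.root_a⟩, ← zf_root hcf (z : A) ⟨b, hC.root_b⟩,
    ← zf_root hcf (z : A) ⟨c, hC.root_c⟩, hr, map_pow] at hnorm
  have hζ0 : ∀ e : AlgebraicClosure K, cub (sh W) e = 0 → zf hcf (z : A) e ≠ 0 := by
    intro e he h0
    have h1 := zf_root hcf (z : A) (⟨e, he⟩ : Rt (sh W) (AlgebraicClosure K))
    rw [h0] at h1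
    exact z.ne_zero ((em hcf _).injective ((map_zero _).trans h1).symm)
  obtain ⟨g, tt, hg1, hg2, hg3, hg4, hg5, hg6⟩ := exists_cls hC (fun e => zf hcf (z : A) e)
    (fun σ e he => zf_equi hcf (z : A) σ he) hζ0 (r := r) hnorm.symm
  set ia := em hcf (⟨a, hC.root_a⟩ : Rt (sh W) (AlgebraicClosure K)) with hia
  have hθ : (ia : A →+* AlgebraicClosure K) θ = a := em_root hcf _
  have hk : ∀ τ : AlgebraicClosure K ≃ₐ[ℚ] AlgebraicClosure K, τ a = a →
      τ (tt a) = sC a (g τ) * tt a := by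
    intro τ hτ
    have h := hg6 τ a hC.root_a
    have h3 : τ⁻¹ a = a := by
      apply τ.injective
      rw [← AlgEquiv.mul_apply, mul_inv_cancel]
      exact hτ.symm
    rwa [h3] at h
  have hta : tt a ^ 2 = (ia : A →+* AlgebraicClosure K) (z : A) :=
    (hg4 a hC.root_a).2.trans (zf_root hcf (z : A) ⟨a, hC.root_a⟩)
  refine ⟨g, hg1, hg2, hg3, ?_, ?_⟩
  · intro L Ω' _ _ _ _ _ _ _ _ hcond
    exact Pool.Agent.Y710.CV.core' (sh W) (ia : A →+* AlgebraicClosure K) (θ := θ)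
      (b := b) (c := c) (by rw [hθ]; exact hC) hnrQ hg2 hg3
      (t := tt a) (hg4 a hC.root_a).1 hta
      (by rw [hθ]; exact hk) hcond
  · rintro ⟨T, hT, hT2⟩
    -- the subgroup
    set H : Subgroup (AlgebraicClosure K ≃ₐ[ℚ] AlgebraicClosure K) :=
      (AlgEquiv.restrictScalarsHom ℚ :
        (AlgebraicClosure K ≃ₐ[K] AlgebraicClosure K) →* _).range with hH
    haveI : H.Normal := by
      refine ⟨fun σ hσ τ => ?_⟩
      obtain ⟨σ0, rfl⟩ := hσ
      obtain ⟨σ', hσ'⟩ := exists_conj (presQ K) τ⁻¹ σ0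
      refine ⟨σ', AlgEquiv.ext fun x => ?_⟩
      show σ' x = τ (σ0 (τ⁻¹ x))
      have h := hσ' x
      rw [← h, ← AlgEquiv.mul_apply, mul_inv_cancel]
      rfl
    have htrans : ∀ e, cub (sh W) e = 0 → ∃ σ ∈ H, σ a = e := by
      intro e he
      obtain ⟨σ, hσ⟩ := trans_roots hC hnr e (hC.root he)
      exact ⟨σ.restrictScalars ℚ, ⟨σ, rfl⟩, hσ⟩
    obtain ⟨t', ht1, ht2⟩ := sq_of_triv hC (ζ := fun e => zf hcf (z : A) e) (g := g) (t := tt)
      (r := r) hr0 hg3 hg4 hg5 hg6 H htrans hT (by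
        rintro σ ⟨σ0, rfl⟩
        exact hT2 σ0)
    obtain ⟨s, hs⟩ := mem_of_stab hcf (⟨a, hC.root_a⟩ : Rt (sh W) (AlgebraicClosure K))
      (x := t' a) (fun σ hσ => by
        have hσ' : σ a = a := hσ
        rw [ht2 σ a hC.root_a, hσ'])
    apply hzsq
    have key : em hcf (⟨a, hC.root_a⟩ : Rt (sh W) (AlgebraicClosure K)) (z : A) =
        em hcf (⟨a, hC.root_a⟩ : Rt (sh W) (AlgebraicClosure K)) (s ^ 2) := by
      rw [map_pow, hs]
      exact ((ht1 a hC.root_a).trans (zf_root hcf (z : A) ⟨a, hC.root_a⟩)).symm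
    exact ⟨s, (em hcf (⟨a, hC.root_a⟩ : Rt (sh W) (AlgebraicClosure K))).toRingHom.injective key⟩

end Pool.Agent.K4H2.CX
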