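import Pool.Agent.K4H53.CX.Stm2
import Pool.Agent.K4H53.BSD.Chain
import Pool.Agent.Y355.G.Desc
import Pool.Agent.R425.Av

/-!
# `S_DESC`: good reduction at two, descent of a trivialisation along an unramified quadratic extension
-/

set_option autoImplicit false
set_option linter.all false

open NumberField IsDedekindDomain WithZero WeierstrassCurve WeierstrassCurve.Affine
open scoped NNReal Classical

namespace Pool.Agent.K4H2.CX

open Pool.Agent.TH115.GD (Pt act rs)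
open Pool.Agent.Y702.G (sh base)
open Pool.Agent.Y355.G (isSh')
open Pool.Agent.R425 (exists_data)
open Pool.Agent.K4H53.BSD

section gen

variable {Ω k0 : Type} [Field Ω] [IsAlgClosed Ω] [Field k0] [Algebra k0 Ω]
  {w : Valuation Ω ℝ≥0} {π : k0} {s : Ω} {m : k0}

/-- the subgroup of the automorphisms which fix `s` -/
def Hs (k0 : Type) {Ω : Type} [Field Ω] [Field k0] [Algebra k0 Ω] (s : Ω) :
    Subgroup (Ω ≃ₐ[k0] Ω) where
  carrier := {τ | τ s = s}
  one_mem' := rfl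
  mul_mem' := by
    intro a b ha hb
    show a (b s) = s
    rw [show b s = s from hb]
    exact ha
  inv_mem' := by
    intro a ha
    show a⁻¹ s = s
    have h : a s = s := ha
    conv_lhs => rw [← h]
    rw [← AlgEquiv.mul_apply, inv_mul_cancel, AlgEquiv.one_apply]

theorem mem_Hs {τ : Ω ≃ₐ[k0] Ω} : τ ∈ Hs k0 s ↔ τ s = s := Iff.rfl

theorem pm (hs : s ^ 2 = algebraMap k0 Ω m) (τ : Ω ≃ₐ[k0] Ω) : τ s = s ∨ τ s = -s := by
  have h : (τ s) ^ 2 = s ^ 2 := by
    rw [← map_pow, hs, τ.commutes]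
  exact sq_eq_sq_iff_eq_or_eq_neg.1 h

theorem inv_neg (τ : Ω ≃ₐ[k0] Ω) (h : τ s = -s) : τ⁻¹ s = -s := by
  apply τ.injective
  rw [map_neg, h, neg_neg, ← AlgEquiv.mul_apply, mul_inv_cancel, AlgEquiv.one_apply]

theorem qs_Hs (hs : s ^ 2 = algebraMap k0 Ω m) {σ : Ω ≃ₐ[k0] Ω} (hσs : σ s ≠ s) :
    QS (⊤ : Subgroup (Ω ≃ₐ[k0] Ω)) (Hs k0 s) σ := by
  have h : σ s = -s := (pm hs σ).resolve_left hσs
  have h' := inv_neg σ h
  refine ⟨le_top, trivial, fun τ hτ => ?_, fun τ _ => ?_, ?_, ⟨s, fun τ hτ => hτ, hσs⟩⟩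
  · rw [mem_Hs] at hτ ⊢
    rw [AlgEquiv.mul_apply, AlgEquiv.mul_apply, h, map_neg, hτ, map_neg, h', neg_neg]
  · rcases pm hs τ with h1 | h1
    · exact Or.inl h1
    · right
      rw [mem_Hs, AlgEquiv.mul_apply, h1, map_neg, h', neg_neg]
  · rw [mem_Hs, AlgEquiv.mul_apply, h, map_neg, h, neg_neg]

variable [IsGalois k0 Ω]

theorem fx_top {x : Ω} (hx : fx (⊤ : Subgroup (Ω ≃ₐ[k0] Ω)) x) : ∃ c, algebraMap k0 Ω c = x := by
  have h1 := (InfiniteGalois.mem_bot_iff_fixed (k := k0) x).2 (fun f => hx f trivial)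
  exact IntermediateField.mem_bot.1 h1

/-- the quadratic extension is unramified -/
theorem ur_Hs (hσ : ∀ (σ : Ω ≃ₐ[k0] Ω) (x : Ω), w (σ x) = w x)
    (hval : ∀ a : k0, a ≠ 0 → ∃ n : ℤ, w (algebraMap k0 Ω a) = w (algebraMap k0 Ω π) ^ n)
    (hfin : ∃ F : Finset Ω, ∀ a : k0, w (algebraMap k0 Ω a) ≤ 1 →
      ∃ y ∈ F, w (algebraMap k0 Ω a - y) < 1)
    (hs : s ^ 2 = algebraMap k0 Ω m) (h2 : (2 : Ω) ≠ 0) (h21 : w (2 : Ω) < 1) {c t : k0} (hc : c ≠ 0)
    (ht : w (algebraMap k0 Ω t) ≤ 1) (hm : m * c ^ 2 = 1 + 4 * t)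
    {σ : Ω ≃ₐ[k0] Ω} (hσs : σ s ≠ s) : UR w π (Hs k0 s) := by
  have hq := qs_Hs hs hσs
  have h : σ s = -s := (pm hs σ).resolve_left hσs
  set s' : Ω := algebraMap k0 Ω c * s with hs'
  have hs'2 : s' ^ 2 = 1 + 4 * algebraMap k0 Ω t := by
    rw [hs', mul_pow, hs, ← map_pow, ← map_mul, mul_comm, hm, map_add, map_one, map_mul, map_ofNat]
  have h4t : w (4 * algebraMap k0 Ω t) < 1 := by
    have e : (4 : Ω) = 2 * 2 := by norm_num
    rw [map_mul, e, map_mul]
    have h3 : w (2 : Ω) * w (2 : Ω) < 1 := mul_lt_one_of_nonneg_of_lt_one_left zero_le h21 h21.le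
    exact mul_lt_one_of_nonneg_of_lt_one_left zero_le h3 ht
  have hws : w s' = 1 := by
    have h3 : w (s' ^ 2) = 1 := by
      rw [hs'2]
      exact Valuation.map_one_add_of_lt w h4t
    rw [map_pow] at h3
    exact (pow_eq_one_iff_of_nonneg zero_le (by norm_num)).1 h3
  have hs'0 : s' ≠ 0 := by
    intro h0
    rw [h0, map_zero] at hws
    exact zero_ne_one hws
  have hfs' : fx (Hs k0 s) s' := fun τ hτ => by
    rw [hs', map_mul, τ.commutes, (hτ : τ s = s)]
  have hσs' : σ s' = -s' := by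
    rw [hs', map_mul, σ.commutes, h, mul_neg]
  set ω : Ω := (1 + s') / 2 with hω
  have hω2 : ω ^ 2 = ω + algebraMap k0 Ω t := by
    have : (1 + s') ^ 2 = 2 * (1 + s') + 4 * algebraMap k0 Ω t := by
      linear_combination hs'2
    rw [hω]
    field_simp
    linear_combination this
  have hω1 : w ω ≤ 1 := by
    by_contra hcon
    rw [not_le] at hcon
    have h3 : w (ω ^ 2) ≤ w ω := by
      rw [hω2]
      refine (Valuation.map_add _ _ _).trans (max_le le_rfl (ht.trans hcon.le))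
    rw [map_pow, sq] at h3
    have h4 : w ω * 1 < w ω * w ω := mul_lt_mul_of_pos_left hcon (zero_lt_one.trans hcon)
    rw [mul_one] at h4
    exact absurd h3 (not_le.2 h4)
  have hfω : fx (Hs k0 s) ω := by
    rw [hω]
    refine (fx_one.add hfs').div ?_
    have := fx_nat (H := Hs k0 s) 2
    exact_mod_cast this
  have hωσ : ω - σ ω = s' := by
    rw [hω, map_div₀, map_add, map_one, hσs', map_ofNat]
    field_simp
    ring
  have key : ∀ x, fx (Hs k0 s) x → ∃ a b : k0, x = algebraMap k0 Ω a + algebraMap k0 Ω b * ω ∧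
      w (algebraMap k0 Ω a) ≤ w x ∧ w (algebraMap k0 Ω b) ≤ w x := by
    intro x hx
    have hy := hq.fxσ hx
    have hinv := hq.inv hx
    obtain ⟨b, hb⟩ : ∃ b, algebraMap k0 Ω b = (x - σ x) / s' := by
      apply fx_top
      rw [hq.fx_iff]
      refine ⟨(hx.sub hy).div hfs', ?_⟩
      rw [map_div₀, map_sub, hinv, hσs']
      field_simp
      ring
    have hbw : w (algebraMap k0 Ω b) ≤ w x := by
      rw [hb, map_div₀, hws, div_one]
      exact w_sub le_rfl (hσ σ x).le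
    obtain ⟨a, ha⟩ : ∃ a, algebraMap k0 Ω a = x - algebraMap k0 Ω b * ω := by
      apply fx_top
      rw [hq.fx_iff]
      refine ⟨hx.sub ((fx_alg b).mul hfω), ?_⟩
      have e1 : algebraMap k0 Ω b * (ω - σ ω) = x - σ x := by
        rw [hωσ, hb, div_mul_cancel₀ _ hs'0]
      rw [map_sub, map_mul, σ.commutes]
      linear_combination e1
    refine ⟨a, b, by rw [ha]; ring, ?_, hbw⟩
    rw [ha]
    refine w_sub le_rfl ?_
    rw [map_mul]
    exact (mul_le_of_le_one_right' hω1).trans hbw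
  refine ⟨fun x hx hx0 => ?_, ?_⟩
  · obtain ⟨a, b, hab, ha, hb⟩ := key x hx
    have hle : w x ≤ max (w (algebraMap k0 Ω a)) (w (algebraMap k0 Ω b)) := by
      conv_lhs => rw [hab]
      refine (Valuation.map_add _ _ _).trans (max_le_max le_rfl ?_)
      rw [map_mul]
      exact mul_le_of_le_one_right' hω1
    have hwx : w x ≠ 0 := (Valuation.ne_zero_iff w).2 hx0
    have hne : ∀ d : k0, w x = w (algebraMap k0 Ω d) → ∃ n : ℤ, w x = w (algebraMap k0 Ω π) ^ n := by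
      intro d hd
      rw [hd]
      apply hval
      rintro rfl
      rw [map_zero, map_zero] at hd
      exact hwx hd
    rcases le_max_iff.1 hle with h3 | h3
    · exact hne a (le_antisymm h3 ha)
    · exact hne b (le_antisymm h3 hb)
  · obtain ⟨F, hF⟩ := hfin
    refine ⟨(F ×ˢ F).image (fun z => z.1 + z.2 * ω), fun x hx hx1 => ?_⟩
    obtain ⟨a, b, hab, ha, hb⟩ := key x hx
    obtain ⟨y, hy, hya⟩ := hF a (ha.trans hx1)
    obtain ⟨z, hz, hzb⟩ := hF b (hb.trans hx1)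
    refine ⟨y + z * ω, Finset.mem_image.2 ⟨(y, z), Finset.mem_product.2 ⟨hy, hz⟩, rfl⟩, ?_⟩
    have e : x - (y + z * ω) = (algebraMap k0 Ω a - y) + (algebraMap k0 Ω b - z) * ω := by
      rw [hab]; ring
    rw [e]
    refine (Valuation.map_add _ _ _).trans_lt (max_lt hya ?_)
    rw [map_mul]
    exact (mul_le_of_le_one_right' hω1).trans_lt hzb

omit [IsAlgClosed Ω] [IsGalois k0 Ω] in
/-- good reduction -/
theorem in0_good {W : WeierstrassCurve ℤ} (hΔ : w ((W.Δ : ℤ) : Ω) = 1)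
    (P : (bs W Ω).toAffine.Point) : In0 w P := by
  obtain ⟨r, hr, -⟩ := exists_rm w
  rw [in0_iff hr]
  have b1 : w ((W.a₁ : ℤ) : Ω) ≤ 1 := w_int w _
  have b2 : w ((W.a₂ : ℤ) : Ω) ≤ 1 := w_int w _
  have b3 : w ((W.a₃ : ℤ) : Ω) ≤ 1 := w_int w _
  have b4 : w ((W.a₄ : ℤ) : Ω) ≤ 1 := w_int w _
  have b6 : w ((W.a₆ : ℤ) : Ω) ≤ 1 := w_int w _
  rcases P with _ | ⟨x, y, h⟩
  · exact ⟨0, trivial⟩
  rcases lt_or_ge 1 (w x) with hx | hx
  · exact ⟨0, hx⟩
  have hy : w y ≤ 1 := w_y h.1 hx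
  have heq : (bs W (IsLocalRing.ResidueField w.valuationSubring)).toAffine.Equation (r x) (r y) := by
    have e := congrArg r (eqn h.1)
    rw [hr.add (w_add (w_pow hy 2) (w_mul (w_mul b1 hx) hy)) (w_mul b3 hy),
      hr.add (w_pow hy 2) (w_mul (w_mul b1 hx) hy), hr.mul (w_mul b1 hx) hy, hr.mul b1 hx,
      hr.mul b3 hy, hr.pow hy,
      hr.add (w_add (w_add (w_pow hx 3) (w_mul b2 (w_pow hx 2))) (w_mul b4 hx)) b6,
      hr.add (w_add (w_pow hx 3) (w_mul b2 (w_pow hx 2))) (w_mul b4 hx),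
      hr.add (w_pow hx 3) (w_mul b2 (w_pow hx 2)), hr.mul b2 (w_pow hx 2), hr.mul b4 hx,
      hr.pow hx, hr.pow hx, hr.int, hr.int, hr.int, hr.int, hr.int] at e
    rw [Affine.equation_iff, a1, a2, a3, a4, a6]
    exact e
  have hΔ' : (bs W (IsLocalRing.ResidueField w.valuationSubring)).toAffine.Δ ≠ 0 := by
    have h1 : r ((W.Δ : ℤ) : Ω) ≠ 0 := (hr.ne_zero (w_int w _)).2 hΔ
    rw [hr.int] at h1
    have h2 : (bs W (IsLocalRing.ResidueField w.valuationSubring)).Δ =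
        ((W.Δ : ℤ) : IsLocalRing.ResidueField w.valuationSubring) := by
      rw [bs, WeierstrassCurve.map_Δ]
      rfl
    exact fun h3 => h1 (h2.symm.trans h3)
  exact ⟨.some _ _ ((Affine.equation_iff_nonsingular_of_Δ_ne_zero hΔ').1 heq), hx, hy, rfl, rfl⟩

/-- the descent -/
theorem desc_core [Algebra ℚ k0] [Algebra ℚ Ω] [IsScalarTower ℚ k0 Ω] {W : WeierstrassCurve ℤ}
    (hW : ¬ (2 : ℤ) ∣ W.Δ)
    (hσ : ∀ (σ : Ω ≃ₐ[k0] Ω) (x : Ω), w (σ x) = w x)
    (hval : ∀ a : k0, a ≠ 0 → ∃ n : ℤ, w (algebraMap k0 Ω a) = w (algebraMap k0 Ω π) ^ n)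
    (hfin : ∃ F : Finset Ω, ∀ a : k0, w (algebraMap k0 Ω a) ≤ 1 →
      ∃ y ∈ F, w (algebraMap k0 Ω a - y) < 1)
    (h1 : w (algebraMap k0 Ω π) < 1) (h0 : w (algebraMap k0 Ω π) ≠ 0)
    (hs : s ^ 2 = algebraMap k0 Ω m) (h21 : w (2 : Ω) < 1) {c t : k0} (hc : c ≠ 0)
    (ht : w (algebraMap k0 Ω t) ≤ 1) (hm : m * c ^ 2 = 1 + 4 * t)
    (f : (Ω ≃ₐ[k0] Ω) → Pt (sh W) Ω) (hf : ∀ σ τ, f (σ * τ) = f σ + act (sh W) (rs ℚ σ) (f τ))
    (hf' : ∃ P, ∀ τ, τ s = s → f τ = act (sh W) (rs ℚ τ) P - P) :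
    ∃ P, ∀ τ, f τ = act (sh W) (rs ℚ τ) P - P := by
  haveI : CharZero Ω := algebraRat.charZero _
  by_cases hall : ∀ τ : Ω ≃ₐ[k0] Ω, τ s = s
  · obtain ⟨P, hP⟩ := hf'
    exact ⟨P, fun τ => hP τ (hall τ)⟩
  push Not at hall
  obtain ⟨σ, hσs⟩ := hall
  have hΔ : w ((W.Δ : ℤ) : Ω) = 1 := by
    have hodd : Odd W.Δ := by
      rw [← Int.not_even_iff_odd, even_iff_two_dvd]
      exact hW
    obtain ⟨k, hk⟩ := hodd
    have e : (((2 * k + 1 : ℤ)) : Ω) = 1 + 2 * (k : Ω) := by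
      push_cast
      ring
    rw [hk, e]
    apply Valuation.map_one_add_of_lt
    rw [map_mul]
    exact mul_lt_one_of_nonneg_of_lt_one_left zero_le h21 (w_int w k)
  have hΔ0 : ((W.Δ : ℤ) : Ω) ≠ 0 := by
    intro h
    rw [h, map_zero] at hΔ
    exact zero_ne_one hΔ
  have h20 : w (2 : Ω) ≠ 0 := (Valuation.ne_zero_iff w).2 two_ne_zero
  have hU : UR w π (Hs k0 s) := ur_Hs hσ hval hfin hs two_ne_zero h21 hc ht hm hσs
  have hq := qs_Hs hs hσs
  have hN : NT2 w W (Hs k0 s) := fun P _ _ => in0_good hΔ P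
  -- the isomorphism with the short model
  set T := Pool.Agent.Y355.G.tr (isSh' W Ω) with hT
  have Tadd : ∀ P Q, T (P + Q) = T P + T Q := fun P Q =>
    Pool.Agent.Y355.G.tr_add (isSh' W Ω) P Q
  have Tinj : ∀ P Q, T P = T Q → P = Q := fun P Q h =>
    Pool.Agent.Y355.G.tr_inj (isSh' W Ω) h
  have Tsub : ∀ P Q, T (P - Q) = T P - T Q := fun P Q => by
    rw [eq_sub_iff_add_eq, ← Tadd, sub_add_cancel]
  choose Ti hTi' using Pool.Agent.Y355.G.tr_surj (isSh' W Ω)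
  have hTi : ∀ Q, T (Ti Q) = Q := hTi'
  have nat : ∀ (σ : Ω ≃ₐ[k0] Ω) (P : (bs W Ω).toAffine.Point),
      T (am W (σ : Ω →+* Ω) P) = act (sh W) (rs ℚ σ) (T P) := by
    intro σ P
    rcases P with _ | ⟨x, y, hxy⟩
    · rfl
    · show Point.some (4 * σ x) (8 * σ y + 4 * ((W.a₁ : ℤ) : Ω) * σ x +
          4 * ((W.a₃ : ℤ) : Ω)) _ =
        Point.some (σ (4 * x)) (σ (8 * y + 4 * ((W.a₁ : ℤ) : Ω) * x +
          4 * ((W.a₃ : ℤ) : Ω))) _
      simp only [map_mul, map_add, map_ofNat, map_intCast]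
  obtain ⟨R, hR⟩ := desc_one (W := W) (H := ⊤) (H' := Hs k0 s) (σ := σ) (π := π)
    hσ hΔ0 h20 hU hq h1 h0 hN (fun τ => Ti (f τ)) (fun σ τ => by
      apply Tinj
      rw [Tadd, nat, hTi, hTi, hTi, hf]) (by
      obtain ⟨P, hP⟩ := hf'
      refine ⟨Ti P, fun τ hτ => ?_⟩
      apply Tinj
      rw [Tsub, nat, hTi, hTi]
      exact hP τ hτ)
  refine ⟨T R, fun τ => ?_⟩
  have h3 := congrArg T (hR τ trivial)
  rw [hTi, Tsub, nat] at h3
  exact h3

end gen

theorem s_desc : Pool.Agent.K4H53.CX.S_DESC := by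
  intro W hW K _ _ v hv m c t hc ht hm s hs f hf hf'
  haveI : IsGalois (v.adicCompletion K) (AlgebraicClosure (v.adicCompletion K)) := by
    haveI : CharZero (v.adicCompletion K) := algebraRat.charZero _
    exact inferInstance
  obtain ⟨w, hw1, hw2, hw3, hw4, hw5⟩ := exists_data v
  have h2w : w (2 : AlgebraicClosure (v.adicCompletion K)) < 1 := by
    have h := (hw4 2).2 hv
    have e : algebraMap (v.adicCompletion K) (AlgebraicClosure (v.adicCompletion K))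
        (algebraMap K (v.adicCompletion K) (((2 : 𝓞 K) : 𝓞 K) : K)) = 2 := by
      rw [show (((2 : 𝓞 K) : 𝓞 K) : K) = 2 from map_ofNat (algebraMap (𝓞 K) K) 2, map_ofNat, map_ofNat]
    rwa [e] at h
  -- the uniformizer
  obtain ⟨ϖ, hϖ⟩ := v.valuation_exists_uniformizer K
  have hval' : ∀ y : K, Valued.v (algebraMap K (v.adicCompletion K) y) = v.valuation K y := by
    intro y
    rw [HeightOneSpectrum.algebraMap_adicCompletion]
    exact HeightOneSpectrum.valuedAdicCompletion_eq_valuation' v y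
  obtain ⟨π, hπv⟩ : ∃ π : v.adicCompletion K, Valued.v π = exp (-1 : ℤ) :=
    ⟨algebraMap K (v.adicCompletion K) ϖ, (hval' ϖ).trans hϖ⟩
  have hwone : ∀ x : v.adicCompletion K, w (algebraMap _ (AlgebraicClosure (v.adicCompletion K)) x) ≤ 1 ↔
      Valued.v x ≤ 1 := by
    intro x
    have := hw2 x 1
    rwa [map_one, map_one, map_one] at this
  have hwone' : ∀ x : v.adicCompletion K, 1 ≤ w (algebraMap _ (AlgebraicClosure (v.adicCompletion K)) x) ↔
      1 ≤ Valued.v x := by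
    intro x
    have := hw2 1 x
    rwa [map_one, map_one, map_one] at this
  have hπ0 : π ≠ 0 := by
    intro h
    rw [h, map_zero] at hπv
    exact exp_ne_zero hπv.symm
  have h0 : w (algebraMap _ (AlgebraicClosure (v.adicCompletion K)) π) ≠ 0 :=
    (Valuation.ne_zero_iff w).2 ((map_ne_zero _).2 hπ0)
  have h1 : w (algebraMap _ (AlgebraicClosure (v.adicCompletion K)) π) < 1 := by
    rw [← not_le, hwone', hπv, not_le, ← exp_zero, exp_lt_exp]
    norm_num
  have hvalk : ∀ a : v.adicCompletion K, a ≠ 0 → ∃ n : ℤ,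
      w (algebraMap _ (AlgebraicClosure (v.adicCompletion K)) a) =
        w (algebraMap _ (AlgebraicClosure (v.adicCompletion K)) π) ^ n := by
    intro a ha
    have ha0 : (Valued.v a : WithZero (Multiplicative ℤ)) ≠ 0 := (Valuation.ne_zero_iff _).2 ha
    obtain ⟨n, hn⟩ : ∃ n : ℤ, Valued.v a = exp n := ⟨log (Valued.v a), (exp_log ha0).symm⟩
    refine ⟨-n, ?_⟩
    have e1 : Valued.v (π ^ (-n)) = Valued.v a := by
      rw [map_zpow₀, hπv, hn, ← exp_zsmul]
      congr 1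
      simp
    rw [← map_zpow₀, ← map_zpow₀]
    exact le_antisymm ((hw2 _ _).2 e1.ge) ((hw2 _ _).2 e1.le)
  have hfink : ∃ F : Finset (AlgebraicClosure (v.adicCompletion K)), ∀ a : v.adicCompletion K,
      w (algebraMap _ (AlgebraicClosure (v.adicCompletion K)) a) ≤ 1 →
      ∃ y ∈ F, w (algebraMap _ (AlgebraicClosure (v.adicCompletion K)) a - y) < 1 := by
    haveI : Finite (𝓞 K ⧸ v.asIdeal) := Ring.HasFiniteQuotients.finiteQuotient v.ne_bot
    let g : 𝓞 K ⧸ v.asIdeal → AlgebraicClosure (v.adicCompletion K) := fun q =>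
      algebraMap _ (AlgebraicClosure (v.adicCompletion K)) (algebraMap K (v.adicCompletion K)
        ((Quotient.out q : 𝓞 K) : K))
    refine ⟨(Set.finite_range g).toFinset, fun a ha => ?_⟩
    obtain ⟨b, hb⟩ := hw5 a ha
    refine ⟨g (Ideal.Quotient.mk _ b), by
      rw [Set.Finite.mem_toFinset]
      exact ⟨_, rfl⟩, ?_⟩
    have hmem : b - (Quotient.out (Ideal.Quotient.mk v.asIdeal b) : 𝓞 K) ∈ v.asIdeal := by
      rw [← Ideal.Quotient.eq]
      exact (Quotient.out_eq _).symm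
    have h3 := (hw4 _).2 hmem
    have e : algebraMap _ (AlgebraicClosure (v.adicCompletion K)) a - g (Ideal.Quotient.mk _ b) =
        (algebraMap _ (AlgebraicClosure (v.adicCompletion K)) a -
          algebraMap _ (AlgebraicClosure (v.adicCompletion K))
            (algebraMap K (v.adicCompletion K) (b : K))) +
        algebraMap _ (AlgebraicClosure (v.adicCompletion K)) (algebraMap K (v.adicCompletion K)
          ((b - (Quotient.out (Ideal.Quotient.mk v.asIdeal b) : 𝓞 K) : 𝓞 K) : K)) := by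
      have e2 : ((b - (Quotient.out (Ideal.Quotient.mk v.asIdeal b) : 𝓞 K) : 𝓞 K) : K) =
          (b : K) - ((Quotient.out (Ideal.Quotient.mk v.asIdeal b) : 𝓞 K) : K) := rfl
      rw [e2, map_sub, map_sub]
      show _ - algebraMap _ (AlgebraicClosure (v.adicCompletion K))
        (algebraMap K (v.adicCompletion K)
        ((Quotient.out (Ideal.Quotient.mk v.asIdeal b) : 𝓞 K) : K)) = _
      ring
    rw [e]
    exact (Valuation.map_add _ _ _).trans_lt (max_lt hb h3)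
  exact desc_core hW hw1 hvalk hfink h1 h0 hs h2w hc ((hwone t).2 ht) hm f hf hf'

end Pool.Agent.K4H2.CX
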