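import Pool.Agent.K4H53.CX.Stm2

/-!
# `S_PIG`: the pigeonhole principle with the weaker local condition at two
-/

set_option autoImplicit false
set_option linter.all false

open NumberField IsDedekindDomain WithZero WeierstrassCurve WeierstrassCurve.Affine
open scoped NNReal Classical

namespace Pool.Agent.K4H2.CX

open Pool.Agent.TH115.GD
open Pool.Agent.TeamU (SU su_fg su_rank index_sq)
open Pool.Agent.Y710.CV (Cond cond1 cond2)
open Pool.Agent.Y702.G (sh base pts)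
open Pool.Agent.R425 (lz exists_data Ev exists_cls sq_of_triv)
open Pool.Agent.R425.G Pool.Agent.R425.P
open Pool.Agent.K4H53.BSR (card_T0)

section grp

variable {H : Type*} [CommGroup H]

theorem idx_half (D : Subgroup H) (hD : D.index ≠ 0) {δ : H} (hδ : δ ∉ D) :
    (D ⊔ Subgroup.zpowers δ).index ≠ 0 ∧ (D ⊔ Subgroup.zpowers δ).index * 2 ≤ D.index := by
  have h1 : D.relIndex (D ⊔ Subgroup.zpowers δ) * (D ⊔ Subgroup.zpowers δ).index = D.index :=
    Subgroup.relIndex_mul_index le_sup_left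
  have h2 : D.relIndex (D ⊔ Subgroup.zpowers δ) ≠ 1 := by
    intro h
    rw [Subgroup.relIndex_eq_one] at h
    exact hδ (h (Subgroup.mem_sup_right (Subgroup.mem_zpowers δ)))
  have h3 : D.relIndex (D ⊔ Subgroup.zpowers δ) ≠ 0 := by
    intro h
    rw [h, zero_mul] at h1
    exact hD h1.symm
  have h4 : (D ⊔ Subgroup.zpowers δ).index ≠ 0 := by
    intro h
    rw [h, mul_zero] at h1
    exact hD h1.symm
  refine ⟨h4, ?_⟩
  rw [← h1, mul_comm]
  exact Nat.mul_le_mul_right _ (by omega)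

theorem mem_half (D : Subgroup H) (hsq : ∀ x : H, x ^ 2 ∈ D) {δ x : H}
    (hx : x ∈ D ⊔ Subgroup.zpowers δ) : x ∈ D ∨ x * δ ∈ D := by
  obtain ⟨y, hy, z, hz, rfl⟩ := Subgroup.mem_sup.1 hx
  obtain ⟨k, rfl⟩ := Subgroup.mem_zpowers_iff.1 hz
  rcases Int.even_or_odd' k with ⟨m, rfl | rfl⟩
  · left
    refine D.mul_mem hy ?_
    have := hsq (δ ^ m)
    rwa [← zpow_natCast, ← zpow_mul, mul_comm] at this
  · right
    rw [mul_assoc]
    refine D.mul_mem hy ?_
    have := hsq (δ ^ (m + 1))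
    rw [← zpow_natCast, ← zpow_mul] at this
    have e : δ ^ (2 * m + 1) * δ = δ ^ ((m + 1) * ((2 : ℕ) : ℤ)) := by
      rw [← zpow_add_one]
      congr 1
      push_cast
      ring
    rw [e]
    exact this

end grp

section main

variable {V : WeierstrassCurve ℚ} {A : Type} [Field A] [NumberField A] {θ : A} (h : CF V A θ)

theorem sq_mem_DD {L Ω' : Type} [Field L] [Field Ω'] [Algebra L Ω'] [Algebra ℚ L]
    [Algebra ℚ Ω'] [IsScalarTower ℚ L Ω'] [IsAlgClosed Ω'] [IsGalois L Ω'] {a b c : Ω'}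
    (hC : IsC (V.baseChange Ω').toAffine a b c) (ζ : EE V L Ω') : ζ ^ 2 ∈ DD (L := L) hC := by
  rw [mem_DD]
  refine ⟨ζ, 1, 0, fun e => ?_⟩
  have e1 : kpf (L := L) (0 : Pt V L) e = 1 := rfl
  rw [e1, Units.val_one, map_one, mul_one, mul_one]
  rfl

include h in
theorem cond_of_DD {L Ω' : Type} [Field L] [Field Ω'] [Algebra L Ω'] [Algebra ℚ L]
    [Algebra ℚ Ω'] [IsScalarTower ℚ L Ω'] [IsAlgClosed Ω'] [IsGalois L Ω'] {a b c : Ω'}
    (hC : IsC (V.baseChange Ω').toAffine a b c) (x : Aˣ)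
    (hx : lo h L Ω' x ∈ DD (L := L) hC) :
    Cond L Ω' V θ ((x * io A (nrm A x) : Aˣ) : A) := by
  set N : ℚˣ := nrm A x with hN
  have hNval : (N : ℚ) = Algebra.norm ℚ (x : A) := rfl
  obtain ⟨η, d, P, hη⟩ := (mem_DD (L := L) hC).1 hx
  have hη' : ∀ e, em h e (x : A) = (η.1 e : Ω') ^ 2 *
    algebraMap L Ω' (d : L) * kpf P e := hη
  obtain ⟨y1, hy1⟩ := prod_fixed hC η
  obtain ⟨y2, hy2⟩ := kp_norm hC P
  set ι := algebraMap L Ω' with hι
  have hnorm : algebraMap ℚ Ω' (N : ℚ) = (ι y1 * ι y2 * ι (d : L)) ^ 2 * ι (d : L) := by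
    rw [hNval, norm_em h hC, hη', hη', hη', hy1]
    linear_combination (((η.1 ⟨a, hC.root_a⟩ : Ω') * (η.1 ⟨b, hC.root_b⟩) *
      (η.1 ⟨c, hC.root_c⟩)) ^ 2 * ι (d : L) ^ 3) * hy2
  refine ⟨act V (incl ℚ L Ω') P, fun σ => rs_act_incl V σ P, fun φ => ?_⟩
  set e : Rt V Ω' := ⟨φ θ, root_em h φ⟩ with he
  refine ⟨(η.1 e : Ω') * (ι y1 * ι y2 * ι (d : L)) * ι (d : L), fun σ hσ => ?_,
    fun b' c' hC' => ?_⟩
  · have hmv : mv σ e = e := Subtype.ext hσ
    rw [map_mul, map_mul, map_mul, map_mul, equi, hmv, σ.commutes, σ.commutes, σ.commutes]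
  · rw [em_uniq h e φ rfl, Units.val_mul, map_mul, hη' e]
    have e1 : ((io A N : Aˣ) : A) = algebraMap ℚ A (N : ℚ) := rfl
    rw [e1, (em h e).commutes, hnorm, kpf_eq P e hC']
    ring

theorem s_pig : Pool.Agent.K4H53.CX.S_PIG := by
  intro V A _ _ θ h hV D0 hD0 h2D X₀ hX₀ hnl ρ R hR0 hRle hcnt
  -- the element `X₀ - θ`
  have hδ0 : (X₀ : A) - θ ≠ 0 := by
    intro h0
    have h1 : (θ : A) = algebraMap ℚ A (X₀ : ℚ) := by
      rw [map_intCast]
      exact (sub_eq_zero.1 h0).symm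
    have h2 := cub_map V (incl ℚ ℚ A) (X₀ : ℚ)
    have h3 : (incl ℚ ℚ A) (X₀ : ℚ) = θ := h1.symm
    rw [h3, h.root] at h2
    exact hX₀ ((map_eq_zero _).1 h2.symm)
  set δA : Aˣ := Units.mk0 ((X₀ : A) - θ) hδ0 with hδA

  have hθ : _root_.IsIntegral ℤ θ := hV.int h.root
  have hroots := fun p : HeightOneSpectrum (𝓞 ℚ) =>
    Y355.G.V_roots hV.a1 hV.a3 hV.Δ (AlgebraicClosure (p.adicCompletion ℚ))
  choose a b c hC using hroots
  haveI hgal := gal_p
  set S0 := TF ℚ D0 hD0 with hS0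
  set S := TF ℚ D0 hD0 with hS
  set T := TF A D0 hD0 with hT
  set G := SU T with hG
  set D' : ∀ p : HeightOneSpectrum (𝓞 ℚ),
      Subgroup (EE V (p.adicCompletion ℚ) (AlgebraicClosure (p.adicCompletion ℚ))) := fun p =>
    if ng p = 2 then DD (L := p.adicCompletion ℚ) (hC p) ⊔ Subgroup.zpowers
      (lo h (p.adicCompletion ℚ) (AlgebraicClosure (p.adicCompletion ℚ)) δA)
    else DD (L := p.adicCompletion ℚ) (hC p) with hD'
  set C : S0 → Subgroup Aˣ := fun p => (D' p.1).comap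
    (lo h (p.1.adicCompletion ℚ) (AlgebraicClosure (p.1.adicCompletion ℚ))) with hCdef
  set r : HeightOneSpectrum (𝓞 ℚ) → ℕ := fun p =>
    Nat.card (Orb V (p.adicCompletion ℚ) (AlgebraicClosure (p.adicCompletion ℚ))) with hrdef
  have hD'idx : ∀ p : HeightOneSpectrum (𝓞 ℚ), (D' p).index ≠ 0 ∧ (D' p).index ≤ 2 ^ (r p - 1) := by
    intro p
    obtain ⟨w, hσ, hL, hfour⟩ := exists_ld p
    obtain ⟨k1, k2⟩ := lp w hσ (hC p) hL hV
    by_cases hp : ng p = 2
    · have hδ : lo h (p.adicCompletion ℚ) (AlgebraicClosure (p.adicCompletion ℚ)) δA ∉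
          DD (L := p.adicCompletion ℚ) (hC p) := by
        intro hmem
        apply hnl p hp
        rw [mem_DD] at hmem
        have e1 : (fun e : Rt V (AlgebraicClosure (p.adicCompletion ℚ)) =>
            (((lo h (p.adicCompletion ℚ) (AlgebraicClosure (p.adicCompletion ℚ)) δA).1 e : _ˣ) :
              AlgebraicClosure (p.adicCompletion ℚ))) =
            fun e => (X₀ : AlgebraicClosure (p.adicCompletion ℚ)) - e.1 := by
          funext e
          rw [lo_apply, hδA, Units.val_mk0, map_sub, em_root, map_intCast]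
        rwa [e1] at hmem
      obtain ⟨k3, k4⟩ := idx_half _ k1 hδ
      have e2 : D' p = DD (L := p.adicCompletion ℚ) (hC p) ⊔ Subgroup.zpowers
          (lo h (p.adicCompletion ℚ) (AlgebraicClosure (p.adicCompletion ℚ)) δA) := if_pos hp
      rw [e2]
      refine ⟨k3, ?_⟩
      rw [if_pos hp] at k2
      exact Nat.le_of_mul_le_mul_right (k4.trans k2) (by norm_num)
    · have e2 : D' p = DD (L := p.adicCompletion ℚ) (hC p) := if_neg hp
      rw [e2]
      rw [if_neg hp, mul_one] at k2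
      exact ⟨k1, k2⟩
  have hCidx : ∀ p : S0, (C p).relIndex G ≠ 0 ∧ (C p).relIndex G ≤ 2 ^ (r p.1 - 1) := by
    intro p
    obtain ⟨k1, k2⟩ := hD'idx p.1
    have h1 : (C p).relIndex G ∣ (D' p.1).index := by
      rw [hCdef, Subgroup.relIndex_comap]
      exact Subgroup.relIndex_dvd_index_of_normal _ _
    exact ⟨fun h0 => k1 (by rw [h0] at h1; exact Nat.eq_zero_of_zero_dvd h1),
      (Nat.le_of_dvd (Nat.pos_of_ne_zero k1) h1).trans k2⟩
  have hr1 : ∀ p : HeightOneSpectrum (𝓞 ℚ), 1 ≤ r p ∧ r p ≤ (Tq A (ng p)).ncard := by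
    intro p
    obtain ⟨w, hσ, hL, hfour⟩ := exists_ld p
    refine ⟨?_, orb_le_tq h w (hC p) hL hθ⟩
    haveI := rt_finite (hC p)
    haveI : Finite (Orb V (p.adicCompletion ℚ) (AlgebraicClosure (p.adicCompletion ℚ))) :=
      Quotient.finite _
    haveI : Nonempty (Orb V (p.adicCompletion ℚ) (AlgebraicClosure (p.adicCompletion ℚ))) :=
      ⟨Quotient.mk _ ⟨a p, (hC p).root_a⟩⟩
    exact Nat.card_pos
  set I : Subgroup Aˣ := ⨅ p : S0, C p with hI
  have hI0 : I.relIndex G ≠ 0 := Subgroup.relIndex_iInf_ne_zero fun p => (hCidx p).1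
  have hIle : I.relIndex G ≤ 2 ^ (∑ p ∈ S0, (r p - 1)) := by
    refine (Subgroup.relIndex_iInf_le _).trans ?_
    refine (Finset.prod_le_prod' fun p _ => (hCidx p).2).trans ?_
    rw [Finset.prod_coe_sort S0 (fun p => 2 ^ (r p - 1)), Finset.prod_pow_eq_pow_sum]
  have hJ0 : (I ⊓ R).relIndex G ≠ 0 := by
    have h1 : R.relIndex G ∣ R.index := Subgroup.relIndex_dvd_index_of_normal _ _
    exact Subgroup.relIndex_inf_ne_zero hI0 (fun h0 => hR0 (by
      rw [h0] at h1; exact Nat.eq_zero_of_zero_dvd h1))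
  have hJle : (I ⊓ R).relIndex G ≤ 2 ^ (∑ p ∈ S0, (r p - 1)) * 2 ^ ρ := by
    have h1 : R.relIndex G ∣ R.index := Subgroup.relIndex_dvd_index_of_normal _ _
    exact Subgroup.relIndex_inf_le.trans (Nat.mul_le_mul hIle
      ((Nat.le_of_dvd (Nat.pos_of_ne_zero hR0) h1).trans hRle))
  -- the subgroup of the squares and of the rational numbers
  set Q : Subgroup Aˣ := (SU S).map (io A) with hQ
  have hQG : Q ≤ G := by
    rintro _ ⟨x, hx, rfl⟩
    exact io_mem hD0 hx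
  set B : Subgroup Aˣ := SqrH G ⊔ Q with hB
  have hBG : B ≤ G := sup_le (sqrH_le G) hQG
  have hX : (SqrH G).relIndex G = 2 ^ (Units.rank A + T.card) * 2 := by
    rw [← sqr_sub, su_idx, two_su]
  have hX1 : (SqrH G).relIndex B * B.relIndex G = (SqrH G).relIndex G :=
    Subgroup.relIndex_mul_relIndex _ _ _ le_sup_left hBG
  have hX2 : (SqrH G).relIndex B ≤ 2 ^ (S.card + 1) := by
    have e1 : (SqrH G).relIndex B = (SqrH G).relIndex Q := by
      rw [hB, Subgroup.relIndex_sup_left]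
    have e2 : (SqrH G).relIndex Q ∣ (SqrH (SU S)).relIndex (SU S) := by
      rw [hQ, ← Subgroup.relIndex_comap]
      apply Subgroup.relIndex_dvd_of_le_left
      rintro _ ⟨x, hx, rfl⟩
      exact ⟨io A x, io_mem hD0 hx, by
        show (io A x) ^ 2 = io A (x ^ 2)
        rw [map_pow]⟩
    have e3 : (SqrH (SU S)).relIndex (SU S) = 2 ^ (S.card + 1) := by
      rw [← sqr_sub, su_idx, two_su, rank_Q, zero_add, pow_succ]
    rw [e1]
    rw [e3] at e2
    exact Nat.le_of_dvd (by positivity) e2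
  -- the pigeonhole principle
  have hmain : ∃ z ∈ G, z ∈ I ⊓ R ∧ z ∉ B := by
    by_contra hcon
    push Not at hcon
    have hle : (I ⊓ R) ⊓ G ≤ B := fun z hz => hcon z hz.2 hz.1
    have h1 : B.relIndex G ∣ (I ⊓ R).relIndex G := by
      have := Subgroup.relIndex_dvd_of_le_left G hle
      rwa [Subgroup.inf_relIndex_right] at this
    have h2 : B.relIndex G ≤ 2 ^ (∑ p ∈ S0, (r p - 1)) * 2 ^ ρ :=
      (Nat.le_of_dvd (Nat.pos_of_ne_zero hJ0) h1).trans hJle
    have h3 : (SqrH G).relIndex G ≤ 2 ^ (S.card + 1) * (2 ^ (∑ p ∈ S0, (r p - 1)) * 2 ^ ρ) := by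
      rw [← hX1]
      exact Nat.mul_le_mul hX2 h2
    rw [hX] at h3
    have hT1 : (∑ p ∈ S0, (Tq A (ng p)).ncard) ≤ T.card :=
      card_T0 (A := A) hD0
    have hsum : ∑ p ∈ S0, (r p - 1) + S0.card = ∑ p ∈ S0, r p := by
      rw [Finset.card_eq_sum_ones, ← Finset.sum_add_distrib]
      refine Finset.sum_congr rfl fun p _ => ?_
      have := (hr1 p).1
      omega
    have hsum2 : ∑ p ∈ S0, r p ≤ ∑ p ∈ S0, (Tq A (ng p)).ncard :=
      Finset.sum_le_sum fun p _ => (hr1 p).2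
    have hScard : S.card = S0.card := rfl
    have h4 : 2 ^ (Units.rank A + T.card) * 2 = 2 ^ (Units.rank A + T.card + 1) := by
      rw [pow_succ]
    have h5 : 2 ^ (S.card + 1) * (2 ^ (∑ p ∈ S0, (r p - 1)) * 2 ^ ρ) =
        2 ^ (S.card + 1 + (∑ p ∈ S0, (r p - 1) + ρ)) := by
      rw [pow_add 2 (S.card + 1) (∑ p ∈ S0, (r p - 1) + ρ),
        pow_add 2 (∑ p ∈ S0, (r p - 1)) ρ]
    rw [h4, h5] at h3
    have h6 := (Nat.pow_le_pow_iff_right (by norm_num : 1 < 2)).1 h3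
    omega
  obtain ⟨z, hzG, ⟨hzI, hzR⟩, hzB⟩ := hmain
  set N : ℚˣ := nrm A z with hN
  have hNS : N ∈ SU S := nrm_mem h hV hD0 hzG
  have hNval : (N : ℚ) = Algebra.norm ℚ (z : A) := rfl
  refine ⟨z, z * io A N, hzR, rfl, ⟨(N : ℚ) ^ 2, pow_ne_zero 2 N.ne_zero, ?_⟩, ?_, ?_, ?_, ?_⟩
  · rw [Units.val_mul, map_mul]
    have e1 : ((io A N : Aˣ) : A) = algebraMap ℚ A (N : ℚ) := rfl
    rw [e1, Algebra.norm_algebraMap, h.deg, ← hNval]
    ring
  · rintro ⟨s, hs⟩
    apply hzB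
    have hs0 : s ≠ 0 := by
      rintro rfl
      rw [zero_pow two_ne_zero] at hs
      exact (z * io A N).ne_zero hs
    have hzN : z * io A N = (Units.mk0 s hs0) ^ 2 := Units.ext (by rw [hs]; rfl)
    have hsG : Units.mk0 s hs0 ∈ G := by
      intro u hu
      have h1 : z * io A N ∈ G := G.mul_mem hzG (io_mem hD0 hNS)
      have h2 := h1 u hu
      rw [hzN] at h2
      have h3 : u.valuation A (((Units.mk0 s hs0) ^ 2 : Aˣ) : A) = 1 := h2
      rw [Units.val_pow_eq_pow_val, map_pow] at h3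
      exact (pow_eq_one_iff_of_nonneg zero_le' (by norm_num)).1 h3
    have hz : z = (Units.mk0 s hs0) ^ 2 * io A N⁻¹ := by
      rw [map_inv, ← hzN, mul_inv_cancel_right]
    rw [hz]
    exact Subgroup.mul_mem_sup ⟨_, hsG, rfl⟩ ⟨N⁻¹, (SU S).inv_mem hNS, rfl⟩
  · intro u hu
    have h1 : z * io A N ∈ G := G.mul_mem hzG (io_mem hD0 hNS)
    exact h1 u (by
      intro hmem
      exact hu (mem_TF.1 hmem))
  · intro p hp hp2
    have hzC : z ∈ C ⟨p, mem_TFQ.2 hp⟩ := (Subgroup.mem_iInf.1 hzI) _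
    have hzC' : lo h (p.adicCompletion ℚ) (AlgebraicClosure (p.adicCompletion ℚ)) z ∈ D' p := hzC
    have e2 : D' p = DD (L := p.adicCompletion ℚ) (hC p) := if_neg hp2
    rw [e2] at hzC'
    exact cond_of_DD h (hC p) z hzC'
  · intro p hp2
    have hp : (ng p : ℤ) ∣ D0 := by rw [hp2]; exact_mod_cast h2D
    have hzC : z ∈ C ⟨p, mem_TFQ.2 hp⟩ := (Subgroup.mem_iInf.1 hzI) _
    have hzC' : lo h (p.adicCompletion ℚ) (AlgebraicClosure (p.adicCompletion ℚ)) z ∈ D' p := hzC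
    have e2 : D' p = DD (L := p.adicCompletion ℚ) (hC p) ⊔ Subgroup.zpowers
        (lo h (p.adicCompletion ℚ) (AlgebraicClosure (p.adicCompletion ℚ)) δA) := if_pos hp2
    rw [e2] at hzC'
    rcases mem_half _ (sq_mem_DD (hC p)) hzC' with hz1 | hz1
    · exact ⟨_, Or.inl rfl, cond_of_DD h (hC p) z hz1⟩
    · rw [← map_mul] at hz1
      have h1 := cond_of_DD h (hC p) (z * δA) hz1
      refine ⟨_, Or.inr rfl, ?_⟩
      have hNδ : (nrm A δA : ℚ) = cub V (X₀ : ℚ) := by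
        have e3 : (nrm A δA : ℚ) = Algebra.norm ℚ ((X₀ : A) - θ) := rfl
        rw [e3]
        apply (algebraMap ℚ (AlgebraicClosure (p.adicCompletion ℚ))).injective
        rw [norm_em h (hC p), map_sub, map_sub, map_sub, em_root, em_root, em_root, map_intCast,
          map_intCast, map_intCast]
        have h2 := cub_map V (incl ℚ ℚ (AlgebraicClosure (p.adicCompletion ℚ))) (X₀ : ℚ)
        have h3 : (incl ℚ ℚ (AlgebraicClosure (p.adicCompletion ℚ))) (X₀ : ℚ) =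
          (X₀ : AlgebraicClosure (p.adicCompletion ℚ)) := map_intCast _ _
        have h4 : (incl ℚ ℚ (AlgebraicClosure (p.adicCompletion ℚ))) (cub V (X₀ : ℚ)) =
          algebraMap ℚ (AlgebraicClosure (p.adicCompletion ℚ)) (cub V (X₀ : ℚ)) := rfl
        rw [← h4, ← h2, h3, (hC p).cub_eq]
      have e4 : (((z * δA) * io A (nrm A (z * δA)) : Aˣ) : A) =
          ((z * io A N : Aˣ) : A) * ((X₀ : A) - θ) * algebraMap ℚ A (cub V (X₀ : ℚ)) := by
        rw [map_mul (nrm A), map_mul (io A), Units.val_mul, Units.val_mul, Units.val_mul,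
          Units.val_mul]
        have e5 : ((io A (nrm A δA) : Aˣ) : A) = algebraMap ℚ A (nrm A δA : ℚ) := rfl
        rw [e5, hNδ, hδA, Units.val_mk0]
        ring
      rw [← e4]
      exact h1

end main

end Pool.Agent.K4H2.CX
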